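import Pool.Agent.Lib.MP_fa837f_gt.P2.Iface

/-!
Project P2, row DV: the derivatives along a line after integration by parts.
-/

set_option autoImplicit false

open MeasureTheory Matrix Set Filter Topology

namespace Pool.Agent.Lib.MP_fa837f_gt.P2.H45

variable {n k : ℕ}

/-- The function to which the rule is applied. -/
noncomputable def phi (S : Sys n k) (τ : Fin n → ℝ) (F : Pt k → ℝ) (i : Fin n) (c : Fin 3)
    (y : Pt k) : ℝ := (τ i * S.r y i) * (Yv S.m y i c * F y)

theorem D_phi (S : Sys n k) (τ : Fin n → ℝ) (hL : LFacts S) (hR : RFacts S τ) (F : Pt k → ℝ)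
    (hF : Differentiable ℝ F) (i : Fin n) (c : Fin 3) (y : Pt k) :
    S.D i c (phi S τ F i c) y =
      τ i * S.r y i * (2 * S.δ / S.L y i * (be S.m (S.r y) i i * Yv S.m y i c)) *
          (Yv S.m y i c * F y) +
        τ i * S.r y i * (be S.m (S.r y) i i * F y + Yv S.m y i c * S.D i c F y) := by
  have hr : DifferentiableAt ℝ (fun z => S.r z i) y :=
    ((hL.sr i).differentiable (by simp)).differentiableAt
  have hY : DifferentiableAt ℝ (fun z => Yv S.m z i c) y :=
    ((hL.sY i c).differentiable (by simp)).differentiableAt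
  have h1 : HasFDerivAt (fun z => τ i * S.r z i) (τ i • fderiv ℝ (fun z => S.r z i) y) y :=
    hr.hasFDerivAt.const_mul (τ i)
  have h2 : HasFDerivAt (fun z => Yv S.m z i c * F z)
      (Yv S.m y i c • fderiv ℝ F y + F y • fderiv ℝ (fun z => Yv S.m z i c) y) y :=
    hY.hasFDerivAt.mul (hF y).hasFDerivAt
  have h3 := h1.mul h2
  have h4 : fderiv ℝ (phi S τ F i c) y = _ := h3.fderiv
  unfold Sys.D
  rw [h4]
  simp only [_root_.add_apply, _root_.smul_apply, smul_eq_mul]
  rw [hL.dr, hL.dY, hR.dlfr, hR.Yfr]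
  simp only [if_true]
  ring

theorem sum3 (S : Sys n k) (y : Pt k) (i : Fin n) :
    ∑ c, Yv S.m y i c * Yv S.m y i c = Gm S.m y i i := rfl

/-- The sum of the derivatives minus twice the sum of the products. -/
theorem Z_eq (S : Sys n k) (τ : Fin n → ℝ) (hL : LFacts S) (hR : RFacts S τ) (F : Pt k → ℝ)
    (hF : Differentiable ℝ F) (y : Pt k) :
    ∑ i, ∑ c, (S.D i c (phi S τ F i c) y - 2 * (Yv S.m y i c * phi S τ F i c y)) =
      2 * (F y * ∑ i, τ i * S.r y i * (be S.m (S.r y) i i *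
        (1 + S.δ * (Gm S.m y i i / S.L y i)) - Gm S.m y i i)) +
      F y * aa S.m τ (S.r y) + ∑ i, ∑ c, τ i * S.r y i * (Yv S.m y i c * S.D i c F y) := by
  have key : ∀ i, ∑ c, (S.D i c (phi S τ F i c) y - 2 * (Yv S.m y i c * phi S τ F i c y)) =
      2 * (F y * (τ i * S.r y i * (be S.m (S.r y) i i *
        (1 + S.δ * (Gm S.m y i i / S.L y i)) - Gm S.m y i i))) +
      F y * (τ i * S.r y i * be S.m (S.r y) i i) +
      ∑ c, τ i * S.r y i * (Yv S.m y i c * S.D i c F y) := by
    intro i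
    have e : ∀ c, S.D i c (phi S τ F i c) y - 2 * (Yv S.m y i c * phi S τ F i c y) =
        (τ i * S.r y i * F y * (2 * S.δ / S.L y i * be S.m (S.r y) i i - 2)) *
          (Yv S.m y i c * Yv S.m y i c) + τ i * S.r y i * be S.m (S.r y) i i * F y +
        τ i * S.r y i * (Yv S.m y i c * S.D i c F y) := by
      intro c
      rw [D_phi S τ hL hR F hF i c y]
      unfold phi
      ring
    simp_rw [e]
    rw [Finset.sum_add_distrib, Finset.sum_add_distrib, ← Finset.mul_sum, sum3]
    simp only [Finset.sum_const, Finset.card_univ, Fintype.card_fin, nsmul_eq_mul]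
    have hLp := (hL.Lpos y i).ne'
    field_simp
    push_cast
    ring
  rw [Finset.sum_congr rfl fun i _ => key i, Finset.sum_add_distrib, Finset.sum_add_distrib,
    ← Finset.mul_sum, ← Finset.mul_sum, ← Finset.mul_sum]
  rfl

theorem Tame.cont {f : Pt k → ℝ} (hf : Tame f) : Continuous f := hf.smooth.continuous

theorem phi_tame (hTm : TmStatement) (S : Sys n k) (τ : Fin n → ℝ) (hT : TFacts S τ)
    (F : Pt k → ℝ) (hF : Tame F) (i : Fin n) (c : Fin 3) : Tame (phi S τ F i c) := by
  obtain ⟨-, hmul, hconst, -, -, -⟩ := hTm k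
  exact hmul _ _ (hmul _ _ (hconst (τ i)) (hT.tr i)) (hmul _ _ (hT.tY i c) hF)

/-- The integral of the sum of the derivatives minus twice the products is zero. -/
theorem Z_int (hTm : TmStatement) (hIn : InStatement) (hIb : IbStatement) (S : Sys n k)
    (τ : Fin n → ℝ) (hT : TFacts S τ) (F : Pt k → ℝ) (hF : Tame F) :
    (Integrable fun y => (∑ i, ∑ c, (S.D i c (phi S τ F i c) y -
      2 * (Yv S.m y i c * phi S τ F i c y))) * S.rho y) ∧
    ∫ y, (∑ i, ∑ c, (S.D i c (phi S τ F i c) y -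
      2 * (Yv S.m y i c * phi S τ F i c y))) * S.rho y = 0 := by
  obtain ⟨-, hmul, hconst, -, -, -⟩ := hTm k
  have ht : ∀ i c, Tame (phi S τ F i c) := fun i c => phi_tame hTm S τ hT F hF i c
  have i1 : ∀ i c, Integrable fun y => S.D i c (phi S τ F i c) y * S.rho y := fun i c =>
    hIn n k S _ (hT.pD i c _ (ht i c)).2 (hT.pD i c _ (ht i c)).1
  have i2 : ∀ i c, Integrable fun y => (Yv S.m y i c * phi S τ F i c y) * S.rho y := fun i c => by
    have := hmul _ _ (hT.tY i c) (ht i c)
    exact hIn n k S _ (Tame.cont this) this.bd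
  have i3 : ∀ i c, Integrable fun y => (S.D i c (phi S τ F i c) y -
      2 * (Yv S.m y i c * phi S τ F i c y)) * S.rho y := fun i c => by
    have := (i1 i c).sub ((i2 i c).const_mul 2)
    refine this.congr (Filter.Eventually.of_forall fun y => ?_)
    simp only [Pi.sub_apply]
    ring
  have z : ∀ i c, ∫ y, (S.D i c (phi S τ F i c) y -
      2 * (Yv S.m y i c * phi S τ F i c y)) * S.rho y = 0 := fun i c => by
    have e : (fun y => (S.D i c (phi S τ F i c) y -
        2 * (Yv S.m y i c * phi S τ F i c y)) * S.rho y) = fun y =>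
        S.D i c (phi S τ F i c) y * S.rho y -
          2 * ((Yv S.m y i c * phi S τ F i c y) * S.rho y) := by
      funext y; ring
    rw [e, integral_sub (i1 i c) ((i2 i c).const_mul 2), integral_const_mul,
      hIb n k S i c _ (ht i c)]
    ring
  have e : (fun y => (∑ i, ∑ c, (S.D i c (phi S τ F i c) y -
      2 * (Yv S.m y i c * phi S τ F i c y))) * S.rho y) = fun y => ∑ i, ∑ c,
        (S.D i c (phi S τ F i c) y - 2 * (Yv S.m y i c * phi S τ F i c y)) * S.rho y := by
    funext y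
    rw [Finset.sum_mul]
    exact Finset.sum_congr rfl fun i _ => Finset.sum_mul _ _ _
  constructor
  · rw [e]
    exact integrable_finsetSum _ fun i _ => integrable_finsetSum _ fun c _ => i3 i c
  · rw [e, integral_finsetSum _ fun i _ => integrable_finsetSum _ fun c _ => i3 i c]
    refine Finset.sum_eq_zero fun i _ => ?_
    rw [integral_finsetSum _ fun c _ => i3 i c]
    exact Finset.sum_eq_zero fun c _ => z i c

/-- `E (1/2 Z + h) = E h`. -/
theorem half_add (S : Sys n k) (Z h : Pt k → ℝ) (hZ : Integrable fun y => Z y * S.rho y)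
    (hZ0 : ∫ y, Z y * S.rho y = 0) (hh : Integrable fun y => h y * S.rho y) :
    ∫ y, (1 / 2 * Z y + h y) * S.rho y = ∫ y, h y * S.rho y := by
  have e : (fun y => (1 / 2 * Z y + h y) * S.rho y) = fun y =>
      1 / 2 * (Z y * S.rho y) + h y * S.rho y := by
    funext y; ring
  rw [e, integral_add (hZ.const_mul _) hh, integral_const_mul, hZ0]
  ring

/-- First derivative. -/
theorem first (hTm : TmStatement) (hIn : InStatement) (hIb : IbStatement) (S : Sys n k)
    (τ : Fin n → ℝ) (hL : LFacts S) (hR : RFacts S τ) (hT : TFacts S τ) :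
    ∫ y, (∑ i, τ i * S.r y i * (be S.m (S.r y) i i *
      (1 + S.δ * (Gm S.m y i i / S.L y i)) - Gm S.m y i i)) * S.rho y =
    -(1 / 2 * ∫ y, aa S.m τ (S.r y) * S.rho y) := by
  obtain ⟨-, hmul, hconst, -, -, -⟩ := hTm k
  have h1 : Tame fun _ : Pt k => (1 : ℝ) := hconst 1
  obtain ⟨hZ, hZ0⟩ := Z_int hTm hIn hIb S τ hT (fun _ => (1 : ℝ)) h1
  have hD : ∀ y i c, S.D i c (fun _ => (1 : ℝ)) y = 0 := by
    intro y i c
    unfold Sys.D
    simp
  have ha : Integrable fun y => (-(1 / 2) * aa S.m τ (S.r y)) * S.rho y := by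
    have := hmul _ _ (hconst (-(1 / 2))) hT.taa
    exact hIn n k S _ (Tame.cont this) this.bd
  have e := half_add S _ _ hZ hZ0 ha
  have e2 : ∫ y, (-(1 / 2) * aa S.m τ (S.r y)) * S.rho y =
      -(1 / 2 * ∫ y, aa S.m τ (S.r y) * S.rho y) := by
    have : (fun y => (-(1 / 2) * aa S.m τ (S.r y)) * S.rho y) = fun y =>
        -(1 / 2) * (aa S.m τ (S.r y) * S.rho y) := by
      funext y; ring
    rw [this, integral_const_mul]
    ring
  rw [← e2, ← e]
  congr 1
  funext y
  congr 1
  rw [Z_eq S τ hL hR _ (h1.smooth.differentiable (by simp)) y]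
  simp only [hD, mul_zero, Finset.sum_const_zero, one_mul]
  ring

/-- The last term for `F = a`. -/
theorem last (hWb : WbStatement) (S : Sys n k) (τ : Fin n → ℝ) (hL : LFacts S) (hR : RFacts S τ)
    (y : Pt k) :
    ∑ i, ∑ c, τ i * S.r y i * (Yv S.m y i c * S.D i c (fun z => aa S.m τ (S.r z)) y) =
      2 * S.δ * ∑ l, S.r y l * al S.m τ (S.r y) l l / S.L y l *
        (τ l * Gm S.m y l l - ∑ j, al S.m τ (S.r y) l j * S.r y j * Gm S.m y j l) := by
  have hA := hWb n k S.m τ (S.r y) S.hm (hL.rpos y)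
  -- the linear relation for the columns
  have hc : ∀ l c, ∑ i, be S.m (S.r y) l i * (τ i * S.r y i) * Yv S.m y i c =
      τ l * Yv S.m y l c - ∑ j, al S.m τ (S.r y) l j * S.r y j * Yv S.m y j c := by
    intro l c
    have h := hA.alx l (fun a => y (a, c))
    have hd : ∀ j, S.m j ⬝ᵥ (fun a => y (a, c)) = Yv S.m y j c := fun j => rfl
    simp only [hd] at h
    linarith
  have hD : ∀ i c, S.D i c (fun z => aa S.m τ (S.r z)) y =
      ∑ l, S.r y l * al S.m τ (S.r y) l l *
        (2 * S.δ / S.L y l * (be S.m (S.r y) l i * Yv S.m y l c)) := by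
    intro i c
    unfold Sys.D
    rw [hR.daa]
    exact Finset.sum_congr rfl fun l _ => by rw [hR.dlfr]
  calc ∑ i, ∑ c, τ i * S.r y i * (Yv S.m y i c * S.D i c (fun z => aa S.m τ (S.r z)) y)
      = ∑ i, ∑ c, ∑ l, 2 * S.δ * (S.r y l * al S.m τ (S.r y) l l / S.L y l *
          (Yv S.m y l c * (be S.m (S.r y) l i * (τ i * S.r y i) * Yv S.m y i c))) := by
        refine Finset.sum_congr rfl fun i _ => Finset.sum_congr rfl fun c _ => ?_
        rw [hD, Finset.mul_sum, Finset.mul_sum]
        refine Finset.sum_congr rfl fun l _ => ?_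
        ring
    _ = ∑ l, ∑ c, ∑ i, 2 * S.δ * (S.r y l * al S.m τ (S.r y) l l / S.L y l *
          (Yv S.m y l c * (be S.m (S.r y) l i * (τ i * S.r y i) * Yv S.m y i c))) := by
        rw [Finset.sum_comm]
        have : ∀ c, ∑ i, ∑ l, 2 * S.δ * (S.r y l * al S.m τ (S.r y) l l / S.L y l *
          (Yv S.m y l c * (be S.m (S.r y) l i * (τ i * S.r y i) * Yv S.m y i c))) =
            ∑ l, ∑ i, 2 * S.δ * (S.r y l * al S.m τ (S.r y) l l / S.L y l *
          (Yv S.m y l c * (be S.m (S.r y) l i * (τ i * S.r y i) * Yv S.m y i c))) :=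
          fun c => Finset.sum_comm
        rw [Finset.sum_congr rfl fun c _ => this c, Finset.sum_comm]
    _ = ∑ l, 2 * S.δ * (S.r y l * al S.m τ (S.r y) l l / S.L y l *
          ∑ c, Yv S.m y l c * (τ l * Yv S.m y l c -
            ∑ j, al S.m τ (S.r y) l j * S.r y j * Yv S.m y j c)) := by
        refine Finset.sum_congr rfl fun l _ => ?_
        rw [Finset.mul_sum, Finset.mul_sum]
        refine Finset.sum_congr rfl fun c _ => ?_
        rw [← hc, Finset.mul_sum, Finset.mul_sum, Finset.mul_sum]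
    _ = _ := by
        rw [Finset.mul_sum]
        refine Finset.sum_congr rfl fun l _ => ?_
        congr 2
        have g1 : ∑ c, Yv S.m y l c * (τ l * Yv S.m y l c -
            ∑ j, al S.m τ (S.r y) l j * S.r y j * Yv S.m y j c) =
            τ l * ∑ c, Yv S.m y l c * Yv S.m y l c -
              ∑ j, al S.m τ (S.r y) l j * S.r y j * ∑ c, Yv S.m y j c * Yv S.m y l c := by
          simp_rw [mul_sub, Finset.sum_sub_distrib, Finset.mul_sum]
          congr 1
          · exact Finset.sum_congr rfl fun c _ => by ring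
          · rw [Finset.sum_comm]
            exact Finset.sum_congr rfl fun j _ => Finset.sum_congr rfl fun c _ => by ring
        rw [g1]
        rfl

/-- Second derivative. -/
theorem second (hTm : TmStatement) (hIn : InStatement) (hIb : IbStatement) (hWb : WbStatement)
    (S : Sys n k) (τ : Fin n → ℝ) (hL : LFacts S) (hR : RFacts S τ) (hT : TFacts S τ) :
    ∫ y, ((∑ i, τ i * S.r y i * al S.m τ (S.r y) i i *
            (1 + S.δ * (Gm S.m y i i / S.L y i))) +
          aa S.m τ (S.r y) * ∑ i, τ i * S.r y i * (be S.m (S.r y) i i *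
            (1 + S.δ * (Gm S.m y i i / S.L y i)) - Gm S.m y i i)) * S.rho y =
    ∫ y, (tt S.m τ (S.r y) - S.Yd τ y - 1 / 2 * aa S.m τ (S.r y) ^ 2) * S.rho y := by
  obtain ⟨hadd, hmul, hconst, -, -, hsum⟩ := hTm k
  obtain ⟨hZ, hZ0⟩ := Z_int hTm hIn hIb S τ hT (fun y => aa S.m τ (S.r y)) hT.taa
  have hG : ∀ i j, Tame fun y => Gm S.m y i j := fun i j =>
    hsum _ _ fun c => hmul _ _ (hT.tY i c) (hT.tY j c)
  have ht1 : Tame fun y => tt S.m τ (S.r y) :=
    hsum _ _ fun i => hmul _ _ (hmul _ _ (hconst (τ i)) (hT.tr i)) (hT.tal i i)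
  have ht2 : Tame fun y => S.Yd τ y := by
    have h : Tame fun y => -1 * (S.δ * ∑ i, S.r y i * al S.m τ (S.r y) i i *
      (∑ j, al S.m τ (S.r y) i j * S.r y j * Gm S.m y j i) * (S.L y i)⁻¹) :=
      hmul _ _ (hconst (-1)) (hmul _ _ (hconst S.δ) (hsum _ _ fun i =>
        hmul _ _ (hmul _ _ (hmul _ _ (hT.tr i) (hT.tal i i))
          (hsum _ _ fun j => hmul _ _ (hmul _ _ (hT.tal i j) (hT.tr j)) (hG j i))) (hT.tLi i)))
    have e : (fun y => S.Yd τ y) = fun y => -1 * (S.δ * ∑ i, S.r y i * al S.m τ (S.r y) i i *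
      (∑ j, al S.m τ (S.r y) i j * S.r y j * Gm S.m y j i) * (S.L y i)⁻¹) := by
      funext y
      unfold Sys.Yd
      rw [neg_one_mul]
      congr 2
    rw [e]; exact h
  have ht3 : Tame fun y => tt S.m τ (S.r y) - S.Yd τ y - 1 / 2 * aa S.m τ (S.r y) ^ 2 := by
    have h : Tame fun y => (tt S.m τ (S.r y) + -1 * S.Yd τ y) +
        (-(1 / 2)) * (aa S.m τ (S.r y) * aa S.m τ (S.r y)) :=
      hadd _ _ (hadd _ _ ht1 (hmul _ _ (hconst (-1)) ht2))
        (hmul _ _ (hconst (-(1 / 2))) (hmul _ _ hT.taa hT.taa))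
    have e : (fun y => tt S.m τ (S.r y) - S.Yd τ y - 1 / 2 * aa S.m τ (S.r y) ^ 2) = fun y =>
        (tt S.m τ (S.r y) + -1 * S.Yd τ y) +
        (-(1 / 2)) * (aa S.m τ (S.r y) * aa S.m τ (S.r y)) := by
      funext y; ring
    rw [e]; exact h
  have hi := hIn n k S _ (Tame.cont ht3) ht3.bd
  rw [← half_add S _ _ hZ hZ0 hi]
  congr 1
  funext y
  congr 1
  rw [Z_eq S τ hL hR _ (hT.taa.smooth.differentiable (by simp)) y, last hWb S τ hL hR y]
  have h5 : ∑ i, τ i * S.r y i * al S.m τ (S.r y) i i *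
            (1 + S.δ * (Gm S.m y i i / S.L y i)) =
      tt S.m τ (S.r y) - S.Yd τ y + S.δ * ∑ l, S.r y l * al S.m τ (S.r y) l l / S.L y l *
        (τ l * Gm S.m y l l - ∑ j, al S.m τ (S.r y) l j * S.r y j * Gm S.m y j l) := by
    unfold tt Sys.Yd
    rw [sub_neg_eq_add, Finset.mul_sum, Finset.mul_sum, ← Finset.sum_add_distrib,
      ← Finset.sum_add_distrib]
    refine Finset.sum_congr rfl fun i _ => ?_
    have hLp := (hL.Lpos y i).ne'
    field_simp
    ring
  rw [h5]
  ring

/-- Row DV. -/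
theorem dv_st (hWb : WbStatement) (hSl : SlStatement) (hSr : SrStatement) (hTm : TmStatement)
    (hTs : TsStatement) (hIn : InStatement) (hIb : IbStatement) (hDu : DuStatement) :
    DvStatement := by
  intro n k m hm δ h0 h1 η hη w τ u S
  obtain ⟨d1, d2⟩ := hDu n k m hm δ h0 h1 η hη w τ u
  have e1 := first hTm hIn hIb (S u) τ (hSl n k (S u)) (hSr n k (S u) τ) (hTs n k (S u) τ)
  have e2 := second hTm hIn hIb hWb (S u) τ (hSl n k (S u)) (hSr n k (S u) τ) (hTs n k (S u) τ)
  constructor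
  · have h := d1
    rw [show (∫ y, (∑ i, τ i * (S u).r y i * (be m ((S u).r y) i i *
        (1 + δ * (Gm m y i i / (S u).L y i)) - Gm m y i i)) * (S u).rho y) =
        -(1 / 2 * ∫ y, aa m τ ((S u).r y) * (S u).rho y) from e1] at h
    exact h
  · have h := d2
    rw [show (∫ y, ((∑ i, τ i * (S u).r y i * al m τ ((S u).r y) i i *
            (1 + δ * (Gm m y i i / (S u).L y i))) +
          aa m τ ((S u).r y) * ∑ i, τ i * (S u).r y i * (be m ((S u).r y) i i *
            (1 + δ * (Gm m y i i / (S u).L y i)) - Gm m y i i)) * (S u).rho y) =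
        ∫ y, (tt m τ ((S u).r y) - (S u).Yd τ y - 1 / 2 * aa m τ ((S u).r y) ^ 2) *
          (S u).rho y from e2] at h
    exact h

end Pool.Agent.Lib.MP_fa837f_gt.P2.H45
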